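import Mathlib

set_option autoImplicit false

namespace Pool.Agent.Results.MP_be7f3b_co.Fingerhut

open Finset

lemma potentials {ι : Type} [Fintype ι] [DecidableEq ι] (w : ι → ι → ℝ)
    (h : ∀ p : Equiv.Perm ι, ∑ i, w i (p i) ≤ ∑ i, w i i) :
    ∃ β : ι → ℝ, ∀ i j, w i j ≤ w i i - β i + β j := by
  classical
  let V : ι → Finset (ι → ι) := fun j =>
    univ.filter (fun s => ∃ z, s z = j ∧ ∀ x y, x ≠ z → y ≠ z → s x = s y → x = y)
  have hV : ∀ j, (V j).Nonempty := fun j =>
    ⟨id, mem_filter.2 ⟨mem_univ _, j, rfl, fun _ _ _ _ e => e⟩⟩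
  choose m hm1 hm2 using fun j => exists_max_image (V j) (fun s => ∑ x, w x (s x)) (hV j)
  refine ⟨fun j => ∑ x, w x (m j x), fun i j => ?_⟩
  obtain ⟨z, hz, hinj⟩ := (mem_filter.1 (hm1 i)).2
  set s := m i with hs
  let C : Finset ι := univ.filter (fun x => ∃ k, s^[k] i = x)
  have hC : ∀ x, x ∈ C ↔ ∃ k, s^[k] i = x := fun x => by simp [C]
  have hiC : i ∈ C := (hC i).2 ⟨0, rfl⟩
  have hmap : ∀ x ∈ C, s x ∈ C := by
    intro x hx
    obtain ⟨k, rfl⟩ := (hC x).1 hx
    exact (hC _).2 ⟨k + 1, Function.iterate_succ_apply' _ _ _⟩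
  have two : ∀ x y, s x = s y → x = y ∨ s x = i := by
    intro x y e
    by_cases h1 : x = z
    · right; rw [h1, hz]
    · by_cases h2 : y = z
      · right; rw [e, h2, hz]
      · left; exact hinj x y h1 h2 e
  let f : C → C := fun x => ⟨s x, hmap x x.2⟩
  have hsurj : Function.Surjective f := by
    by_cases hi : ∃ x ∈ C, s x = i
    · rintro ⟨y, hy⟩
      obtain ⟨k, rfl⟩ := (hC y).1 hy
      cases k with
      | zero => obtain ⟨x, hx, e⟩ := hi; exact ⟨⟨x, hx⟩, Subtype.ext e⟩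
      | succ k =>
        exact ⟨⟨s^[k] i, (hC _).2 ⟨k, rfl⟩⟩, Subtype.ext (Function.iterate_succ_apply' _ _ _).symm⟩
    · apply Finite.surjective_of_injective
      intro x y e
      rcases two x y (congrArg Subtype.val e) with h | h
      · exact Subtype.ext h
      · exact absurd ⟨x, x.2, h⟩ hi
  have hbij : Function.Bijective f := ⟨Finite.injective_iff_surjective.2 hsurj, hsurj⟩
  have pre : ∀ y ∈ C, ∃ c ∈ C, s c = y := fun y hy => by
    obtain ⟨c, hc⟩ := hsurj ⟨y, hy⟩
    exact ⟨c, c.2, congrArg Subtype.val hc⟩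
  let p : Equiv.Perm ι := Equiv.Perm.ofSubtype (Equiv.ofBijective f hbij)
  have hp1 : ∀ x ∈ C, p x = s x := fun x hx => Equiv.Perm.ofSubtype_apply_of_mem _ hx
  have hp2 : ∀ x, x ∉ C → p x = x := fun x hx => Equiv.Perm.ofSubtype_apply_of_not_mem _ hx
  let t : ι → ι := fun x => if x = i then j else if x ∈ C then x else s x
  have ht : t ∈ V j := by
    refine mem_filter.2 ⟨mem_univ _, i, by simp [t], fun x y hx hy e => ?_⟩
    simp only [t, if_neg hx, if_neg hy] at e
    have mixed : ∀ x y, x ≠ i → x ∈ C → y ∉ C → x ≠ s y := by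
      intro x y hx h1 h2 e
      obtain ⟨c, hc, e'⟩ := pre x h1
      rcases two c y (e'.trans e) with h | h
      · exact h2 (h ▸ hc)
      · exact hx (e'.symm.trans h)
    split_ifs at e with h1 h2 h2
    · exact e
    · exact absurd e (mixed x y hx h1 h2)
    · exact absurd e.symm (mixed y x hy h2 h1)
    · obtain ⟨c, hc, e'⟩ := pre i hiC
      by_cases a1 : x = z
      · by_cases a2 : y = z
        · rw [a1, a2]
        · have : c = y := hinj c y (fun h => h1 (a1 ▸ h ▸ hc)) a2 (by rw [e', ← e, a1, hz])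
          exact absurd (this ▸ hc) h2
      · by_cases a2 : y = z
        · have : c = x := hinj c x (fun h => h2 (a2 ▸ h ▸ hc)) a1 (by rw [e', e, a2, hz])
          exact absurd (this ▸ hc) h1
        · exact hinj x y a1 a2 e
  have h1 := hm2 j t ht
  have h2 := h p
  have e : ∑ x, w x (t x) + ∑ x, w x (p x) + w i i = ∑ x, w x (s x) + ∑ x, w x x + w i j := by
    have a : ∀ x, w x (t x) + w x (p x) + (if x = i then w i i else 0)
        = w x (s x) + w x x + (if x = i then w i j else 0) := by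
      intro x
      by_cases hx : x = i
      · subst hx; simp only [t, if_true, hp1 x hiC]; ring
      · by_cases hc : x ∈ C
        · simp only [t, if_neg hx, if_pos hc, hp1 x hc]; ring
        · simp only [t, if_neg hx, if_neg hc, hp2 x hc]
    have := sum_congr rfl (fun x (_ : x ∈ (univ : Finset ι)) => a x)
    simpa [sum_add_distrib] using this
  simp only at h1 ⊢
  linarith

lemma norm_step {E : Type} [NormedAddCommGroup E] [InnerProductSpace ℝ E] (x d : E) (hx : x ≠ 0)
    (e : ℝ) : ‖x - e • d‖ ≤ ‖x‖ - e * inner ℝ (‖x‖⁻¹ • x) d + e ^ 2 * (‖d‖ ^ 2 / (2 * ‖x‖)) := by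
  have h0 : 0 < ‖x‖ := norm_pos_iff.2 hx
  have h1 : ‖x - e • d‖ ^ 2 = ‖x‖ ^ 2 - 2 * e * inner ℝ x d + e ^ 2 * ‖d‖ ^ 2 := by
    rw [norm_sub_sq_real, inner_smul_right, norm_smul, mul_pow, Real.norm_eq_abs, sq_abs]; ring
  have h2 : ‖x - e • d‖ ≤ (‖x - e • d‖ ^ 2 + ‖x‖ ^ 2) / (2 * ‖x‖) := by
    rw [le_div_iff₀ (by positivity)]; nlinarith [sq_nonneg (‖x - e • d‖ - ‖x‖)]
  refine h2.trans (le_of_eq ?_)
  rw [h1, real_inner_smul_left]; field_simp; ring

lemma fin_case {E : Type} [NormedAddCommGroup E] [InnerProductSpace ℝ E] [FiniteDimensional ℝ E]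
    {ι : Type} [Fintype ι] [Nonempty ι] (r b : ι → E) (ρ β : ι → ℝ)
    (h : ∀ i j, √2 * ‖r i - b j‖ ≤ ρ i + β j) :
    ∃ o, ∀ i j, ‖o - r i‖ + ‖o - b j‖ ≤ ρ i + β j := by
  classical
  let g : ι × ι → E → ℝ := fun p o => ‖o - r p.1‖ + ‖o - b p.2‖ - (ρ p.1 + β p.2)
  let G : E → ℝ := fun o => univ.sup' univ_nonempty (fun p => g p o)
  have hg : ∀ p, Continuous (g p) := fun p => by simp only [g]; fun_prop
  have hG : Continuous G := Continuous.finset_sup'_apply _ fun p _ => hg p
  have hle : ∀ p o, g p o ≤ G o := fun p o => le_sup' (fun p => g p o) (mem_univ p)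
  obtain ⟨o, ho⟩ : ∃ o, ∀ y, G o ≤ G y := by
    apply hG.exists_forall_le
    obtain ⟨i⟩ := ‹Nonempty ι›
    have : ProperSpace E := FiniteDimensional.proper_real E
    have t1 := Filter.tendsto_atTop_add_const_right _ (-(‖r i‖ + (ρ i + β i)))
      (tendsto_norm_cocompact_atTop (E := E))
    refine Filter.tendsto_atTop_mono (fun y => le_trans ?_ (hle (i, i) y)) t1
    have := norm_sub_norm_le y (r i)
    have := norm_nonneg (y - b i)
    simp only [g]; linarith
  by_contra hcon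
  have hpos : 0 < G o := by
    by_contra hn
    exact hcon ⟨o, fun i j => by have := (hle (i, j) o).trans (not_lt.1 hn); simp only [g] at this; linarith⟩
  let A : Finset (ι × ι) := univ.filter (fun p => g p o = G o)
  have hA : A.Nonempty := by
    obtain ⟨p, _, e⟩ := exists_mem_eq_sup' univ_nonempty (fun p => g p o)
    exact ⟨p, mem_filter.2 ⟨mem_univ _, e.symm⟩⟩
  have hcross : ∀ p ∈ A, ∀ q ∈ A, 0 < inner ℝ (o - r p.1) (o - b q.2) := by
    intro p hp q hq
    have a1 := (mem_filter.1 hp).2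
    have a2 := (mem_filter.1 hq).2
    have a3 := hle (q.1, p.2) o
    have a4 := h p.1 q.2
    simp only [g] at a1 a2 a3
    have a5 : √2 * ‖r p.1 - b q.2‖ < ‖o - r p.1‖ + ‖o - b q.2‖ := by linarith
    have a6 := pow_lt_pow_left₀ a5 (by positivity) two_ne_zero
    rw [mul_pow, Real.sq_sqrt (by norm_num),
      show r p.1 - b q.2 = (o - b q.2) - (o - r p.1) by abel, norm_sub_sq_real,
      real_inner_comm] at a6
    nlinarith [sq_nonneg (‖o - r p.1‖ - ‖o - b q.2‖)]
  let u : ι → E := fun i => ‖o - r i‖⁻¹ • (o - r i)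
  let v : ι → E := fun j => ‖o - b j‖⁻¹ • (o - b j)
  have hx : ∀ p ∈ A, o - r p.1 ≠ 0 ∧ o - b p.2 ≠ 0 := fun p hp =>
    ⟨fun e => by have := hcross p hp p hp; rw [e] at this; simp at this,
     fun e => by have := hcross p hp p hp; rw [e] at this; simp at this⟩
  have huv : ∀ p ∈ A, ∀ q ∈ A, 0 < inner ℝ (u p.1) (v q.2) := by
    intro p hp q hq
    simp only [u, v, real_inner_smul_left, real_inner_smul_right]
    have := norm_pos_iff.2 (hx p hp).1
    have := norm_pos_iff.2 (hx q hq).2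
    have := hcross p hp q hq
    positivity
  let K : Set E := convexHull ℝ ((fun p : ι × ι => u p.1 + v p.2) '' (A : Set (ι × ι)))
  have hK : IsCompact K := (A.finite_toSet.image _).isCompact_convexHull ℝ
  have h0 : (0 : E) ∉ K := by
    intro h0
    have sub : K ⊆ {y | ∃ a ∈ convexHull ℝ ((fun p : ι × ι => u p.1) '' (A : Set (ι × ι))),
        ∃ c ∈ convexHull ℝ ((fun p : ι × ι => v p.2) '' (A : Set (ι × ι))), a + c = y} := by
      refine convexHull_min ?_ ((convex_convexHull ℝ _).add (convex_convexHull ℝ _))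
      rintro _ ⟨p, hp, rfl⟩
      exact ⟨_, subset_convexHull ℝ _ ⟨p, hp, rfl⟩, _, subset_convexHull ℝ _ ⟨p, hp, rfl⟩, rfl⟩
    obtain ⟨a, ha, c, hc, e⟩ := sub h0
    have s1 : ∀ q ∈ A, 0 < inner ℝ (v q.2) a := by
      intro q hq
      refine convexHull_min (t := {y | 0 < innerₛₗ ℝ (v q.2) y}) ?_
        (convex_halfSpace_gt (innerₛₗ ℝ (v q.2)).isLinear 0) ha
      rintro _ ⟨p, hp, rfl⟩
      show 0 < inner ℝ (v q.2) (u p.1)
      rw [real_inner_comm]; exact huv p hp q hq
    have s2 : 0 < inner ℝ a c := by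
      refine convexHull_min (t := {y | 0 < innerₛₗ ℝ a y}) ?_
        (convex_halfSpace_gt (innerₛₗ ℝ a).isLinear 0) hc
      rintro _ ⟨q, hq, rfl⟩
      show 0 < inner ℝ a (v q.2)
      rw [real_inner_comm]; exact s1 q hq
    have : c = -a := by rw [eq_neg_iff_add_eq_zero, add_comm]; exact e
    rw [this, inner_neg_right] at s2
    have := real_inner_self_nonneg (x := a)
    linarith
  obtain ⟨f, s, hf1, hf2⟩ := geometric_hahn_banach_point_closed (convex_convexHull ℝ _)
    hK.isClosed h0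
  let d := (InnerProductSpace.toDual ℝ E).symm f
  have hd : ∀ p ∈ A, 0 < inner ℝ (u p.1) d + inner ℝ (v p.2) d := by
    intro p hp
    have := hf2 _ (subset_convexHull ℝ _ ⟨p, hp, rfl⟩)
    rw [map_zero] at hf1
    rw [← inner_add_left, real_inner_comm, InnerProductSpace.toDual_symm_apply]
    linarith
  have ev : ∀ p, ∀ᶠ e in nhdsWithin (0 : ℝ) (Set.Ioi 0), g p (o - e • d) < G o := by
    intro p
    by_cases hp : p ∈ A
    · have a1 := (mem_filter.1 hp).2
      set c := ‖d‖ ^ 2 / (2 * ‖o - r p.1‖) + ‖d‖ ^ 2 / (2 * ‖o - b p.2‖) with hc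
      have cont : Filter.Tendsto (fun e : ℝ => e * c) (nhds 0) (nhds (0 * c)) :=
        (continuous_id.mul continuous_const).tendsto 0
      rw [zero_mul] at cont
      filter_upwards [nhdsWithin_le_nhds (cont.eventually (gt_mem_nhds (hd p hp))),
        self_mem_nhdsWithin] with e he he0
      have n1 := norm_step _ d (hx p hp).1 e
      have n2 := norm_step _ d (hx p hp).2 e
      have := mul_lt_mul_of_pos_left he (show (0 : ℝ) < e from he0)
      simp only [g] at a1 ⊢
      rw [sub_right_comm o (e • d) (r p.1), sub_right_comm o (e • d) (b p.2)]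
      simp only [u, v] at this
      rw [hc] at this
      nlinarith
    · have a1 : g p o < G o := lt_of_le_of_ne (hle p o) fun e => hp (mem_filter.2 ⟨mem_univ _, e⟩)
      have cont : Filter.Tendsto (fun e : ℝ => g p (o - e • d)) (nhds 0) (nhds (g p (o - (0 : ℝ) • d))) :=
        ((hg p).comp (by fun_prop)).tendsto 0
      rw [zero_smul, sub_zero] at cont
      exact nhdsWithin_le_nhds (cont.eventually (gt_mem_nhds a1))
  obtain ⟨e, he⟩ := (Filter.eventually_all.2 ev).exists
  exact absurd (ho (o - e • d)) (not_le.2 ((sup'_lt_iff _).2 fun p _ => he p))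

theorem result (E : Type) [NormedAddCommGroup E] [InnerProductSpace ℝ E] (n : ℕ) (hn : 1 ≤ n)
    (r b : Fin n → E)
    (hmax : ∀ p : Equiv.Perm (Fin n), ∑ i, ‖r i - b (p i)‖ ≤ ∑ i, ‖r i - b i‖) :
    ∃ o : E, ∀ i, ‖r i - o‖ + ‖b i - o‖ ≤ √2 * ‖r i - b i‖ := by
  have : Nonempty (Fin n) := ⟨⟨0, hn⟩⟩
  obtain ⟨β, hβ⟩ := potentials (fun i j => ‖r i - b j‖) hmax
  let W : Submodule ℝ E := Submodule.span ℝ (Set.range r ∪ Set.range b)
  have : FiniteDimensional ℝ W :=
    FiniteDimensional.span_of_finite ℝ ((Set.finite_range r).union (Set.finite_range b))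
  obtain ⟨o, ho⟩ := fin_case (E := W)
    (fun i => ⟨r i, Submodule.subset_span (Or.inl ⟨i, rfl⟩)⟩)
    (fun i => ⟨b i, Submodule.subset_span (Or.inr ⟨i, rfl⟩)⟩)
    (fun i => √2 * (‖r i - b i‖ - β i)) (fun j => √2 * β j) (fun i j => by
      rw [← mul_add]
      exact mul_le_mul_of_nonneg_left (hβ i j) (by positivity))
  refine ⟨o, fun i => ?_⟩
  have := ho i i
  rw [← mul_add, sub_add_cancel] at this
  rw [norm_sub_rev (r i), norm_sub_rev (b i)]
  exact this

end Pool.Agent.Results.MP_be7f3b_co.Fingerhut
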